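import Pool.Agent.Helper69.QG.St3

set_option autoImplicit false

namespace Pool.Agent.Helper76.QG

open Pool.Agent.Helper69.QG Pool.Agent.Helper35.PM

/-- commutator -/
private def cmt {G : Type} [Group G] (a b : G) : G := a * b * a⁻¹ * b⁻¹

private theorem map_cmt {G H : Type} [Group G] [Group H] (φ : G →* H) (a b : G) :
    φ (cmt a b) = cmt (φ a) (φ b) := by
  simp [cmt]

private theorem map_relator {G : Type} [Group G] (g : ℕ) (φ : FreeGroup (Fin g × Bool) →* G) :
    φ (relator g) = (List.ofFn fun i : Fin g =>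
      cmt (φ (FreeGroup.of (i, false))) (φ (FreeGroup.of (i, true)))).prod := by
  unfold relator
  rw [map_list_prod, List.map_ofFn]
  congr 2
  funext i
  simp [cmt]

private theorem rel_SG (g : ℕ) :
    (List.ofFn fun i : Fin g => cmt (sgen g i false) (sgen g i true)).prod = 1 := by
  have h1 : PresentedGroup.mk ({relator g} : Set (FreeGroup (Fin g × Bool))) (relator g) = 1 :=
    PresentedGroup.one_of_mem (Set.mem_singleton _)
  rw [map_relator g (PresentedGroup.mk ({relator g} : Set (FreeGroup (Fin g × Bool))))] at h1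
  exact h1

private theorem lift_SG {G : Type} [Group G] (g : ℕ) (f : Fin g × Bool → G)
    (h : (List.ofFn fun i : Fin g => cmt (f (i, false)) (f (i, true))).prod = 1) :
    ∃ φ : SurfaceGroup g →* G, ∀ i e, φ (sgen g i e) = f (i, e) := by
  have h1 : ∀ r ∈ ({relator g} : Set (FreeGroup (Fin g × Bool))), FreeGroup.lift f r = 1 := by
    intro r hr
    rw [Set.mem_singleton_iff] at hr
    subst hr
    rw [map_relator g (FreeGroup.lift f), ← h]
    simp only [FreeGroup.lift_apply_of]
  exact ⟨PresentedGroup.toGroup h1, fun i e => PresentedGroup.toGroup.of h1⟩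

private theorem ind_SG (g : ℕ) (K : Subgroup (SurfaceGroup g)) (h : ∀ i e, sgen g i e ∈ K) :
    ∀ x, x ∈ K := by
  intro x
  have h1 : Subgroup.closure (Set.range
      (PresentedGroup.of (rels := ({relator g} : Set (FreeGroup (Fin g × Bool)))))) ≤ K := by
    rw [Subgroup.closure_le]
    rintro _ ⟨⟨i, e⟩, rfl⟩
    exact h i e
  rw [PresentedGroup.closure_range_of] at h1
  exact h1 (Subgroup.mem_top x)

/-- fibrewise left multiplication -/
private def Lf {S J : Type} [Group S] (f : J → S) : Equiv.Perm (S × J) where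
  toFun p := (f p.2 * p.1, p.2)
  invFun p := ((f p.2)⁻¹ * p.1, p.2)
  left_inv p := by simp
  right_inv p := by simp

private theorem Lf_apply {S J : Type} [Group S] (f : J → S) (x : S) (j : J) :
    Lf f (x, j) = (f j * x, j) := rfl

private theorem Lf_inv_apply {S J : Type} [Group S] (f : J → S) (x : S) (j : J) :
    (Lf f)⁻¹ (x, j) = ((f j)⁻¹ * x, j) := rfl

/-- the shift -/
private def Tf (S : Type) (m : ℕ) : Equiv.Perm (S × Fin (m + 1)) where
  toFun p := (p.1, p.2 - 1)
  invFun p := (p.1, p.2 + 1)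
  left_inv p := by simp
  right_inv p := by simp

private theorem Tf_apply (S : Type) (m : ℕ) (x : S) (j : Fin (m + 1)) :
    Tf S m (x, j) = (x, j - 1) := rfl

private theorem Tf_inv_apply (S : Type) (m : ℕ) (x : S) (j : Fin (m + 1)) :
    (Tf S m)⁻¹ (x, j) = (x, j + 1) := rfl

private theorem prod_snoc {S : Type} [Group S] (c : ℕ → S) (k : ℕ) :
    (List.ofFn fun i : Fin (k + 1) => c i).prod = (List.ofFn fun i : Fin k => c i).prod * c k := by
  rw [List.ofFn_succ']
  simp

theorem cGNG (wrd : St_WRD) : St_GNG := by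
  intro n hn
  obtain ⟨m, rfl⟩ : ∃ m, n = m + 1 := ⟨n - 1, by omega⟩
  -- genus two
  set A0 : SurfaceGroup 2 := sgen 2 0 false with hA0
  set B0 : SurfaceGroup 2 := sgen 2 0 true with hB0
  set A1 : SurfaceGroup 2 := sgen 2 1 false with hA1
  set B1 : SurfaceGroup 2 := sgen 2 1 true with hB1
  have r2 : cmt A0 B0 * cmt A1 B1 = 1 := by
    have := rel_SG 2
    simpa [List.ofFn_succ] using this
  have r2' : A0 * B0 * A0⁻¹ * B0⁻¹ * (A1 * B1 * A1⁻¹ * B1⁻¹) = 1 := r2
  -- genus `m + 2`
  have rS := rel_SG (m + 1 + 1)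
  rw [List.ofFn_succ, List.prod_cons] at rS
  -- the homomorphism `κ`
  have hw := wrd.2 (SurfaceGroup 2) A0 B0 A1 B1 r2' (m + 1)
  obtain ⟨κ, hκ⟩ := lift_SG (m + 1 + 1) (G := SurfaceGroup 2)
    (fun p => Fin.cases (if p.2 then B0 else A0 ^ (m + 1))
      (fun i : Fin (m + 1) => A0 ^ (i : ℕ) * (if p.2 then B1 else A1) * (A0 ^ (i : ℕ))⁻¹) p.1)
    (by
      rw [List.ofFn_succ, List.prod_cons]
      simpa [cmt] using hw)
  have κa0 : κ (sgen _ 0 false) = A0 ^ (m + 1) := by rw [hκ]; rfl
  have κb0 : κ (sgen _ 0 true) = B0 := by rw [hκ]; rfl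
  have κa : ∀ i : Fin (m + 1), κ (sgen _ i.succ false) = A0 ^ (i : ℕ) * A1 * (A0 ^ (i : ℕ))⁻¹ := by
    intro i; rw [hκ]; rfl
  have κb : ∀ i : Fin (m + 1), κ (sgen _ i.succ true) = A0 ^ (i : ℕ) * B1 * (A0 ^ (i : ℕ))⁻¹ := by
    intro i; rw [hκ]; rfl
  -- the elements `c` and `β`
  set cN : ℕ → SurfaceGroup (m + 1 + 1) := fun k => if h : k < m + 1 then
    cmt (sgen (m + 1 + 1) (⟨k, h⟩ : Fin (m + 1)).succ false)
      (sgen (m + 1 + 1) (⟨k, h⟩ : Fin (m + 1)).succ true) else 1 with hcN
  have hc : ∀ i : Fin (m + 1), cN i = cmt (sgen (m + 1 + 1) i.succ false)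
      (sgen (m + 1 + 1) i.succ true) := by
    intro i
    simp only [hcN]
    rw [dif_pos i.2]
  set β : ℕ → SurfaceGroup (m + 1 + 1) := fun k => ((List.ofFn fun i : Fin k => cN i).prod)⁻¹ * sgen (m + 1 + 1) 0 true
    with hβ
  have β0 : β 0 = sgen (m + 1 + 1) 0 true := by simp [hβ]
  have βs : ∀ k, β (k + 1) = (cN k)⁻¹ * β k := by
    intro k
    simp only [hβ, prod_snoc, mul_inv_rev, mul_assoc]
  have rS' : cmt (sgen (m + 1 + 1) 0 false) (sgen (m + 1 + 1) 0 true)
      * (List.ofFn fun i : Fin (m + 1) => cN i).prod = 1 := by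
    rw [← rS]
    congr 3
    funext i
    exact hc i
  have βlast : sgen (m + 1 + 1) 0 false * β 0 * (sgen (m + 1 + 1) 0 false)⁻¹ * (β m)⁻¹ * cN m
      = 1 := by
    rw [prod_snoc] at rS'
    rw [β0, ← rS', hβ]
    simp only [cmt, mul_inv_rev, inv_inv]
    group
  have hneg : (-1 : Fin (m + 1)) = Fin.last m :=
    (eq_neg_of_add_eq_zero_left (Fin.last_add_one m)).symm
  -- the action of the genus two group
  set fa : Fin (m + 1) → SurfaceGroup (m + 1 + 1) := fun j => if j = 0 then sgen (m + 1 + 1) 0 false else 1 with hfa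
  set PA0 : Equiv.Perm (SurfaceGroup (m + 1 + 1) × Fin (m + 1)) := Tf (SurfaceGroup (m + 1 + 1)) m * Lf fa with hPA0
  set PB0 : Equiv.Perm (SurfaceGroup (m + 1 + 1) × Fin (m + 1)) := Lf (fun j : Fin (m + 1) => β j) with hPB0
  set PA1 : Equiv.Perm (SurfaceGroup (m + 1 + 1) × Fin (m + 1)) :=
    Lf (fun j : Fin (m + 1) => sgen (m + 1 + 1) j.succ false) with hPA1
  set PB1 : Equiv.Perm (SurfaceGroup (m + 1 + 1) × Fin (m + 1)) :=
    Lf (fun j : Fin (m + 1) => sgen (m + 1 + 1) j.succ true) with hPB1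
  have hrel : cmt PA0 PB0 * cmt PA1 PB1 = 1 := by
    ext1 p
    obtain ⟨x, j⟩ := p
    simp only [cmt, hPA0, hPB0, hPA1, hPB1, mul_inv_rev, Equiv.Perm.mul_apply, Lf_apply,
      Lf_inv_apply, Tf_apply, Tf_inv_apply, Equiv.Perm.one_apply, add_sub_cancel_right]
    refine Prod.ext ?_ rfl
    by_cases hj : j = Fin.last m
    · subst hj
      have h1 : Fin.last m + 1 = 0 := Fin.last_add_one m
      rw [h1]
      simp only [hfa, if_true]
      have h2 := hc (Fin.last m)
      rw [Fin.val_last] at h2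
      have h3 := βlast
      rw [h2, cmt] at h3
      simp only [Fin.val_last, Fin.val_zero, ← mul_assoc]
      simp only [← mul_assoc] at h3
      rw [h3, one_mul]
    · have h1 : j + 1 ≠ 0 := by
        intro h
        apply hj
        have h' : j = -1 := eq_neg_of_add_eq_zero_left h
        rw [h', hneg]
      have h2 : ((j + 1 : Fin (m + 1)) : ℕ) = (j : ℕ) + 1 := by
        refine Fin.val_add_one_of_lt ?_
        exact lt_of_le_of_ne (Fin.le_last j) hj
      simp only [hfa, h1, if_false, h2, βs, hc, inv_one, one_mul]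
      simp only [cmt]
      group
  obtain ⟨θ, hθ⟩ := lift_SG 2 (G := Equiv.Perm (SurfaceGroup (m + 1 + 1) × Fin (m + 1)))
    (fun p => if p.1 = 0 then (if p.2 then PB0 else PA0) else (if p.2 then PB1 else PA1))
    (by
      have := hrel
      simpa [List.ofFn_succ] using this)
  have θA0 : θ A0 = PA0 := by rw [hA0, hθ]; simp
  have θB0 : θ B0 = PB0 := by rw [hB0, hθ]; simp
  have θA1 : θ A1 = PA1 := by rw [hA1, hθ]; simp
  have θB1 : θ B1 = PB1 := by rw [hB1, hθ]; simp
  -- powers of `PA0`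
  have hpow : ∀ (k : ℕ) (hk : k < m + 1) (x : SurfaceGroup (m + 1 + 1)), (PA0 ^ k) (x, ⟨k, hk⟩) = (x, 0) := by
    intro k
    induction k with
    | zero => intro hk x; rfl
    | succ k ih =>
      intro hk x
      rw [pow_succ, Equiv.Perm.mul_apply]
      have h0 : (⟨k + 1, hk⟩ : Fin (m + 1)) ≠ 0 := by
        intro h
        have := congrArg Fin.val h
        simp at this
      have h1 : (⟨k + 1, hk⟩ : Fin (m + 1)) - 1 = ⟨k, by omega⟩ := by
        rw [sub_eq_iff_eq_add]
        apply Fin.ext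
        rw [Fin.val_add_one_of_lt]
        rw [Fin.lt_def]
        simp
        omega
      have h2 : PA0 (x, ⟨k + 1, hk⟩) = (x, ⟨k, by omega⟩) := by
        rw [hPA0, Equiv.Perm.mul_apply, Lf_apply, Tf_apply, h1]
        simp [hfa, h0]
      rw [h2]
      exact ih (by omega) x
  have hpow' : ∀ (k : ℕ) (hk : k < m + 1) (x : SurfaceGroup (m + 1 + 1)), (PA0 ^ k)⁻¹ (x, 0) = (x, ⟨k, hk⟩) := by
    intro k hk x
    rw [Equiv.Perm.inv_eq_iff_eq, hpow k hk x]
  -- `θ (κ y)` at `(x, 0)`
  have hθκ : ∀ (y x : SurfaceGroup (m + 1 + 1)), θ (κ y) (x, 0) = (y * x, 0) := by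
    let K : Subgroup (SurfaceGroup (m + 1 + 1)) :=
      { carrier := {y | ∀ x : SurfaceGroup (m + 1 + 1), θ (κ y) (x, 0) = (y * x, 0)}
        one_mem' := by intro x; simp
        mul_mem' := by
          intro a b ha hb x
          rw [map_mul, map_mul, Equiv.Perm.mul_apply, hb, ha, mul_assoc]
        inv_mem' := by
          intro a ha x
          rw [map_inv, map_inv, Equiv.Perm.inv_eq_iff_eq, ha]
          simp }
    intro y
    refine (ind_SG (m + 1 + 1) K ?_ y : y ∈ K)
    intro i e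
    refine Fin.cases ?_ (fun i => ?_) i
    · cases e
      · intro x
        show θ (κ (sgen _ 0 false)) (x, 0) = _
        rw [κa0, map_pow, θA0, pow_succ, Equiv.Perm.mul_apply]
        have h2 : PA0 (x, 0) = (sgen (m + 1 + 1) 0 false * x, ⟨m, by omega⟩) := by
          rw [hPA0, Equiv.Perm.mul_apply, Lf_apply, Tf_apply]
          refine Prod.ext ?_ ?_
          · simp [hfa]
          · show (0 : Fin (m + 1)) - 1 = _
            rw [zero_sub, hneg]
            rfl
        rw [h2, hpow]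
      · intro x
        show θ (κ (sgen _ 0 true)) (x, 0) = _
        rw [κb0, θB0, hPB0, Lf_apply]
        simp [β0]
    · cases e
      · intro x
        show θ (κ (sgen _ i.succ false)) (x, 0) = _
        rw [κa, map_mul, map_mul, map_inv, map_pow, θA0, θA1, Equiv.Perm.mul_apply,
          Equiv.Perm.mul_apply, hpow' i i.2, hPA1, Lf_apply, hpow i i.2]
      · intro x
        show θ (κ (sgen _ i.succ true)) (x, 0) = _
        rw [κb, map_mul, map_mul, map_inv, map_pow, θA0, θB1, Equiv.Perm.mul_apply,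
          Equiv.Perm.mul_apply, hpow' i i.2, hPB1, Lf_apply, hpow i i.2]
  -- conjugates of `B0`
  have hβκ : ∀ k : ℕ, k ≤ m + 1 → κ (β k) = A0 ^ k * B0 * (A0 ^ k)⁻¹ := by
    intro k
    induction k with
    | zero => intro _; rw [β0, κb0]; simp
    | succ k ih =>
      intro hk
      have h1 := hc ⟨k, by omega⟩
      simp only at h1
      rw [βs, map_mul, map_inv, ih (by omega), h1, map_cmt, κa, κb]
      have h3 : (cmt A1 B1)⁻¹ = cmt A0 B0 := (eq_inv_of_mul_eq_one_left r2).symm
      have h4 : cmt (A0 ^ k * A1 * (A0 ^ k)⁻¹) (A0 ^ k * B1 * (A0 ^ k)⁻¹)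
          = A0 ^ k * cmt A1 B1 * (A0 ^ k)⁻¹ := by
        simp only [cmt]
        group
      simp only
      rw [h4, mul_inv_rev, mul_inv_rev, h3, pow_succ]
      simp only [cmt]
      group
  -- equivariance
  have hΨ : ∀ (y : SurfaceGroup 2) (p : SurfaceGroup (m + 1 + 1) × Fin (m + 1)),
      (A0 ^ ((θ y p).2 : ℕ))⁻¹ * κ (θ y p).1 = y * ((A0 ^ (p.2 : ℕ))⁻¹ * κ p.1) := by
    let K : Subgroup (SurfaceGroup 2) :=
      { carrier := {y | ∀ p : SurfaceGroup (m + 1 + 1) × Fin (m + 1),
          (A0 ^ ((θ y p).2 : ℕ))⁻¹ * κ (θ y p).1 = y * ((A0 ^ (p.2 : ℕ))⁻¹ * κ p.1)}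
        one_mem' := by intro x; simp
        mul_mem' := by
          intro a b ha hb p
          rw [map_mul, Equiv.Perm.mul_apply, ha, hb, mul_assoc]
        inv_mem' := by
          intro a ha p
          have h5 : θ a (θ a⁻¹ p) = p := by
            rw [← Equiv.Perm.mul_apply, ← map_mul, mul_inv_cancel, map_one,
              Equiv.Perm.one_apply]
          have h6 := ha (θ a⁻¹ p)
          rw [h5] at h6
          rw [h6, inv_mul_cancel_left] }
    intro y
    refine (ind_SG 2 K ?_ y : y ∈ K)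
    intro i e
    fin_cases i
    · cases e
      · rintro ⟨x, j⟩
        show (A0 ^ ((θ A0 (x, j)).2 : ℕ))⁻¹ * κ (θ A0 (x, j)).1 = A0 * _
        rw [θA0, hPA0, Equiv.Perm.mul_apply, Lf_apply, Tf_apply]
        by_cases hj : j = 0
        · subst hj
          have h1 : ((0 - 1 : Fin (m + 1)) : ℕ) = m := by
            rw [zero_sub, hneg, Fin.val_last]
          simp only [h1, hfa, if_true, map_mul, κa0, Fin.val_zero, pow_zero, inv_one, one_mul]
          rw [pow_succ]
          group
        · have h1 : ((j - 1 : Fin (m + 1)) : ℕ) + 1 = j := by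
            have h2 : (j - 1) + 1 = j := sub_add_cancel j 1
            have h3 : ((j - 1 + 1 : Fin (m + 1)) : ℕ) = ((j - 1 : Fin (m + 1)) : ℕ) + 1 := by
              refine Fin.val_add_one_of_lt ?_
              refine lt_of_le_of_ne (Fin.le_last _) ?_
              intro h
              apply hj
              rw [← h2, h]
              exact Fin.last_add_one m
            rw [← h3, h2]
          simp only [hfa, hj, if_false, one_mul]
          rw [← h1, pow_succ]
          group
      · rintro ⟨x, j⟩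
        show (A0 ^ ((θ B0 (x, j)).2 : ℕ))⁻¹ * κ (θ B0 (x, j)).1 = B0 * _
        rw [θB0, hPB0, Lf_apply]
        simp only [map_mul]
        rw [hβκ j j.2.le]
        group
    · cases e
      · rintro ⟨x, j⟩
        show (A0 ^ ((θ A1 (x, j)).2 : ℕ))⁻¹ * κ (θ A1 (x, j)).1 = A1 * _
        rw [θA1, hPA1, Lf_apply]
        simp only [map_mul]
        rw [κa]
        group
      · rintro ⟨x, j⟩
        show (A0 ^ ((θ B1 (x, j)).2 : ℕ))⁻¹ * κ (θ B1 (x, j)).1 = B1 * _
        rw [θB1, hPB1, Lf_apply]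
        simp only [map_mul]
        rw [κb]
        group
  refine ⟨κ, ?_, ?_⟩
  · rw [injective_iff_map_eq_one]
    intro y hy
    have h1 := hθκ y 1
    rw [hy, map_one, Equiv.Perm.one_apply, mul_one] at h1
    exact (congrArg Prod.fst h1).symm
  · intro y
    have h1 := hΨ y⁻¹ (1, 0)
    simp only [Fin.val_zero, pow_zero, inv_one, map_one, mul_one, one_mul] at h1
    refine ⟨(θ y⁻¹ (1, 0)).1⁻¹, ((θ y⁻¹ (1, 0)).2 : ℕ), (θ y⁻¹ (1, 0)).2.2, ?_⟩
    rw [map_inv]
    have h2 := congrArg (fun z => z⁻¹) h1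
    simp only [mul_inv_rev, inv_inv] at h2
    exact h2.symm

end Pool.Agent.Helper76.QG
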