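import Pool.Agent.Helper69.QG.St4

set_option autoImplicit false

open Complex Set Metric MeasureTheory Filter Topology
open scoped ComplexConjugate

namespace Pool.Agent.Helper76.QG

open Pool.Agent.Helper69.QG

private theorem flat_iso (w : W) : ∀ u v : ℂ, ‖flat w u - flat w v‖ = ‖u - v‖ := by
  refine cs.simple_induction (p := fun w => ∀ u v : ℂ, ‖flat w u - flat w v‖ = ‖u - v‖) w
    ?_ ?_ ?_
  · intro s u v
    show ‖flat (gen s) u - flat (gen s) v‖ = _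
    rw [flat_gen, flat_gen]
    have hc : ‖conj u - conj v‖ = ‖u - v‖ := by
      rw [← map_sub, Complex.norm_conj]
    have hc' : ‖conj v - conj u‖ = ‖u - v‖ := by
      rw [← map_sub, Complex.norm_conj, norm_sub_rev]
    fin_cases s
    · show ‖-conj u - -conj v‖ = _
      rw [← hc']; congr 1; ring
    · show ‖(2 - conj u) - (2 - conj v)‖ = _
      rw [← hc']; congr 1; ring
    · exact hc
    · show ‖(conj u + 2 * I) - (conj v + 2 * I)‖ = _
      rw [← hc]; congr 1; ring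
  · intro u v
    simp
  · intro w w' h h' u v
    rw [map_mul, Equiv.Perm.mul_apply, Equiv.Perm.mul_apply, h, h']

private theorem psi_cd : ContDiff ℝ 1 psi := by
  have h1 : ContDiff ℝ 1 (fun z : ℂ => (2 / (tau * (1 + ‖z‖ ^ 2)) : ℝ)) := by
    refine ContDiff.div contDiff_const ?_ ?_
    · exact contDiff_const.mul (contDiff_const.add (contDiff_norm_sq ℝ))
    · intro z
      have := tau_pos
      positivity
  have h2 : ContDiff ℝ 1 (fun z : ℂ => (((2 / (tau * (1 + ‖z‖ ^ 2)) : ℝ)) : ℂ)) :=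
    Complex.ofRealCLM.contDiff.comp h1
  exact h2.mul contDiff_id

private theorem mob_ne {α β z : ℂ} (h : ‖α‖ ^ 2 - ‖β‖ ^ 2 = 1) (hz : ‖z‖ < 1) :
    conj β * z + conj α ≠ 0 := by
  intro h0
  have h1 : conj α = -(conj β * z) := by linear_combination h0
  have h2 : ‖α‖ = ‖β‖ * ‖z‖ := by
    rw [← Complex.norm_conj α, h1, norm_neg, norm_mul, Complex.norm_conj]
  have h3 := norm_nonneg β
  have h4 := norm_nonneg z
  have h5 : ‖α‖ ≤ ‖β‖ := by rw [h2]; nlinarith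
  have h6 := norm_nonneg α
  nlinarith

private theorem lip_mob {α β : ℂ} (h : ‖α‖ ^ 2 - ‖β‖ ^ 2 = 1) {r : ℝ} (hr : r < 1) :
    ∃ L : ℝ, 0 ≤ L ∧ ∀ x y : ℂ, ‖x‖ ≤ r → ‖y‖ ≤ r →
      ‖psi ((α * x + β) / (conj β * x + conj α)) - psi ((α * y + β) / (conj β * y + conj α))‖
        ≤ L * ‖x - y‖ := by
  set f : ℂ → ℂ := fun z => psi ((α * z + β) / (conj β * z + conj α)) with hf
  have h1 : ContDiffOn ℝ 1 f (ball (0 : ℂ) 1) := by
    refine psi_cd.comp_contDiffOn ?_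
    have h3 : ContDiffOn ℝ 1 (fun z : ℂ => (α * z + β) * (conj β * z + conj α)⁻¹)
        (ball (0 : ℂ) 1) := by
      refine ContDiffOn.mul ?_ (ContDiffOn.inv ?_ ?_)
      · exact ((contDiff_const.mul contDiff_id).add contDiff_const).contDiffOn
      · exact ((contDiff_const.mul contDiff_id).add contDiff_const).contDiffOn
      · intro z hz
        exact mob_ne h (mem_ball_zero_iff.1 hz)
    exact h3
  have h2 : ContinuousOn (fderiv ℝ f) (ball (0 : ℂ) 1) :=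
    h1.continuousOn_fderiv_of_isOpen isOpen_ball le_rfl
  have hsub : closedBall (0 : ℂ) r ⊆ ball (0 : ℂ) 1 := closedBall_subset_ball hr
  obtain ⟨L, hL⟩ := (isCompact_closedBall (0 : ℂ) r).exists_bound_of_continuousOn (h2.mono hsub)
  refine ⟨max L 0, le_max_right _ _, ?_⟩
  intro x y hx hy
  have hx' : x ∈ closedBall (0 : ℂ) r := mem_closedBall_zero_iff.2 hx
  have hy' : y ∈ closedBall (0 : ℂ) r := mem_closedBall_zero_iff.2 hy
  refine Convex.norm_image_sub_le_of_norm_fderiv_le (𝕜 := ℝ) (f := f)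
    (s := closedBall (0 : ℂ) r) ?_ ?_ (convex_closedBall _ _) hy' hx'
  · intro z hz
    exact (h1.differentiableOn (by norm_num)).differentiableAt (isOpen_ball.mem_nhds (hsub hz))
  · intro z hz
    exact (hL z hz).trans (le_max_left _ _)

private theorem lip_act (cta : St_CTA) (evl : St_EVL) (w : W) {r : ℝ} (hr : r < 1) :
    ∃ L : ℝ, 0 ≤ L ∧ ∀ x y : DD, ‖(x : ℂ)‖ ≤ r → ‖(y : ℂ)‖ ≤ r →
      ‖psi (act w x : DD) - psi (act w y : DD)‖ ≤ L * ‖(x : ℂ) - y‖ := by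
  rcases evl.2.2.2.1 w with hw | hw
  · obtain ⟨α, β, h, hm⟩ := cta.2.1 ⟨w, hw⟩
    obtain ⟨L, hL, hL'⟩ := lip_mob h hr
    refine ⟨L, hL, ?_⟩
    intro x y hx hy
    rw [hm, hm]
    exact hL' x y hx hy
  · obtain ⟨α, β, h, hm⟩ := cta.2.2 ⟨w * gen 0, hw⟩
    obtain ⟨L, hL, hL'⟩ := lip_mob h hr
    refine ⟨L, hL, ?_⟩
    intro x y hx hy
    have h00 : gen 0 * gen 0 = (1 : W) := cs.simple_mul_simple_self 0
    have hw0 : ((⟨w * gen 0, hw⟩ : Ev) : W) * gen 0 = w := by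
      show w * gen 0 * gen 0 = w
      rw [mul_assoc, h00, mul_one]
    rw [hw0] at hm
    rw [hm, hm]
    have h1 := hL' (conj (x : ℂ)) (conj (y : ℂ)) (by rwa [Complex.norm_conj])
      (by rwa [Complex.norm_conj])
    rwa [← map_sub, Complex.norm_conj] at h1

theorem cLPS (pbd : St_PBD) (cvr : St_CVR) (lfn : St_LFN) (cta : St_CTA) (evl : St_EVL)
    (lpl : St_LPL) : St_LPS := by
  intro Psi hPsi r hr
  have hT := lfn r hr
  obtain ⟨n, v, -, hv⟩ := hT.fin_param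
  have hcpt : IsCompact Pc := pbd.2.2.2.1
  have hlip := fun i : Fin n => lip_act cta evl (v i)⁻¹ hr
  choose L hL hL' using hlip
  refine ⟨∑ i, L i, Finset.sum_nonneg fun i _ => hL i, ?_⟩
  intro x y hx hy
  refine lpl n (fun i => (fun z : DD => (z : ℂ)) '' (act (v i) '' Pc)) (closedBall (0 : ℂ) r)
    (PsE Psi) (∑ i, L i) (Finset.sum_nonneg fun i _ => hL i) (convex_closedBall _ _) ?_ ?_ ?_
    x (mem_closedBall_zero_iff.2 hx) y (mem_closedBall_zero_iff.2 hy)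
  · intro i
    refine ⟨_, ?_, rfl⟩
    exact ((hcpt.image (cta.1 (v i))).image continuous_subtype_val).isClosed
  · intro z hz
    have hz' : z ∈ ball (0 : ℂ) 1 := closedBall_subset_ball hr hz
    obtain ⟨w, hw⟩ := cvr ⟨z, hz'⟩
    have h1 : act w⁻¹ (act w ⟨z, hz'⟩) = ⟨z, hz'⟩ := by
      rw [← Equiv.Perm.mul_apply, ← map_mul, inv_mul_cancel, map_one, Equiv.Perm.one_apply]
    have h2 : w⁻¹ ∈ range v := by
      rw [hv]
      refine ⟨_, hw, ?_⟩
      rw [h1]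
      exact mem_closedBall_zero_iff.1 hz
    obtain ⟨i, hi⟩ := h2
    refine mem_iUnion.2 ⟨i, ⟨⟨z, hz'⟩, ⟨_, hw, ?_⟩, rfl⟩⟩
    rw [hi, h1]
  · rintro i x ⟨⟨x', ⟨p, hp, hpx⟩, rfl⟩, hx⟩ y ⟨⟨y', ⟨q, hq, hqy⟩, rfl⟩, hy⟩
    have e1 : ∀ (z : DD) (p : DD), p ∈ Pc → act (v i) p = z →
        PsE Psi (z : ℂ) = flat (v i) (psi (act (v i)⁻¹ z : DD)) := by
      intro z p hp hpz
      have h1 : PsE Psi (z : ℂ) = Psi z := by
        unfold PsE
        rw [dif_pos z.2]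
      have h2 : act (v i)⁻¹ z = p := by
        rw [← hpz, ← Equiv.Perm.mul_apply, ← map_mul, inv_mul_cancel, map_one,
          Equiv.Perm.one_apply]
      rw [h1, h2, ← hPsi.tile p hp, ← hPsi.eqv, hpz]
    show ‖PsE Psi (x' : ℂ) - PsE Psi (y' : ℂ)‖ ≤ (∑ i, L i) * ‖(x' : ℂ) - y'‖
    rw [e1 x' p hp hpx, e1 y' q hq hqy, flat_iso]
    refine (hL' i x' y' (mem_closedBall_zero_iff.1 hx) (mem_closedBall_zero_iff.1 hy)).trans ?_
    refine mul_le_mul_of_nonneg_right ?_ (norm_nonneg _)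
    exact Finset.single_le_sum (fun j _ => hL j) (Finset.mem_univ i)

end Pool.Agent.Helper76.QG
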